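import Mathlib

open Filter Topology

namespace Pool.Agent.Helper40.Conv

theorem shift_sum_le (b : ℕ → ℝ) (hb0 : ∀ n, 0 ≤ b n) (hb1 : ∀ n, b n ≤ 1) (N s : ℕ) :
    ∑ n ∈ Finset.range N, b n ≤ s + ∑ j ∈ Finset.range N, b (j + s) := by
  have h1 : ∑ n ∈ Finset.range N, b n ≤ ∑ n ∈ Finset.range (s + N), b n :=
    Finset.sum_le_sum_of_subset_of_nonneg (Finset.range_mono (by omega)) fun n _ _ => hb0 n
  rw [Finset.sum_range_add] at h1
  have h2 : ∑ n ∈ Finset.range s, b n ≤ s := by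
    calc _ ≤ ∑ n ∈ Finset.range s, (1 : ℝ) := Finset.sum_le_sum fun n _ => hb1 n
      _ = s := by simp
  have h3 : ∑ j ∈ Finset.range N, b (s + j) = ∑ j ∈ Finset.range N, b (j + s) :=
    Finset.sum_congr rfl fun j _ => by rw [add_comm]
  linarith

theorem avg_zero (b : ℕ → ℝ) (hb0 : ∀ n, 0 ≤ b n) (hb1 : ∀ n, b n ≤ 1) (C : ℝ)
    (h : ∀ k : ℕ, ∃ S : Finset ℕ, S.card = k ∧ ∀ j, ∑ s ∈ S, b (j + s) ≤ C) :
    Tendsto (fun N : ℕ => (∑ n ∈ Finset.range N, b n) / (N : ℝ)) atTop (𝓝 0) := by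
  rw [Metric.tendsto_atTop]
  intro ε hε
  have hC0 : 0 ≤ C := by
    obtain ⟨S, _, hS⟩ := h 0
    exact (Finset.sum_nonneg fun s _ => hb0 _).trans (hS 0)
  obtain ⟨k, hk⟩ := exists_nat_gt (2 * C / ε)
  have hk0 : (0 : ℝ) < k := lt_of_le_of_lt (by positivity) hk
  obtain ⟨S, hS1, hS2⟩ := h k
  set D : ℝ := ∑ s ∈ S, (s : ℝ) with hD
  have hD0 : 0 ≤ D := Finset.sum_nonneg fun s _ => by positivity
  obtain ⟨N₀, hN₀⟩ := exists_nat_gt (2 * D / (k * ε))
  refine ⟨max N₀ 1, fun N hN => ?_⟩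
  have hN1 : 1 ≤ N := (le_max_right _ _).trans hN
  have hN2 : (N₀ : ℝ) ≤ N := by exact_mod_cast (le_max_left _ _).trans hN
  have hN0 : (0 : ℝ) < N := by exact_mod_cast hN1
  have h1 : k * ∑ n ∈ Finset.range N, b n ≤ D + N * C := by
    have h2 : ∑ s ∈ S, ∑ n ∈ Finset.range N, b n ≤
        ∑ s ∈ S, ((s : ℝ) + ∑ j ∈ Finset.range N, b (j + s)) :=
      Finset.sum_le_sum fun s _ => shift_sum_le b hb0 hb1 N s
    rw [Finset.sum_const, hS1, nsmul_eq_mul, Finset.sum_add_distrib, Finset.sum_comm] at h2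
    have h3 : ∑ j ∈ Finset.range N, ∑ s ∈ S, b (j + s) ≤ N * C := by
      calc _ ≤ ∑ j ∈ Finset.range N, C := Finset.sum_le_sum fun j _ => hS2 j
        _ = _ := by simp
    linarith
  have h4 : 0 ≤ ∑ n ∈ Finset.range N, b n := Finset.sum_nonneg fun n _ => hb0 n
  rw [Real.dist_eq, sub_zero, abs_of_nonneg (by positivity), div_lt_iff₀ hN0]
  have h5 : 2 * C < k * ε := by
    rw [div_lt_iff₀ hε] at hk; exact hk
  have h6 : 2 * D < N * (k * ε) := by
    have := lt_of_lt_of_le hN₀ hN2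
    rw [div_lt_iff₀ (by positivity)] at this
    exact this
  have h7 : k * ∑ n ∈ Finset.range N, b n < k * (ε * N) := by nlinarith
  exact lt_of_mul_lt_mul_left h7 hk0.le

/-- the same for the first powers -/
theorem avg_zero' (b : ℕ → ℝ) (hb0 : ∀ n, 0 ≤ b n) (hb1 : ∀ n, b n ≤ 1) (C : ℝ)
    (h : ∀ k : ℕ, ∃ S : Finset ℕ, S.card = k ∧ ∀ j, ∑ s ∈ S, b (j + s) ^ 2 ≤ C) :
    Tendsto (fun N : ℕ => (∑ n ∈ Finset.range N, b n) / (N : ℝ)) atTop (𝓝 0) := by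
  have h1 := avg_zero (fun n => b n ^ 2) (fun n => by positivity)
    (fun n => pow_le_one₀ (hb0 n) (hb1 n)) C h
  have h2 := h1.sqrt
  rw [Real.sqrt_zero] at h2
  refine squeeze_zero (fun N => div_nonneg (Finset.sum_nonneg fun n _ => hb0 n) (by positivity))
    (fun N => ?_) h2
  apply Real.le_sqrt_of_sq_le
  rcases Nat.eq_zero_or_pos N with h3 | h3
  · subst h3; simp
  · have hN0 : (0 : ℝ) < N := by exact_mod_cast h3
    rw [div_pow, div_le_div_iff₀ (by positivity) hN0]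
    have h4 : (∑ n ∈ Finset.range N, b n) ^ 2 ≤ N * ∑ n ∈ Finset.range N, b n ^ 2 := by
      have := sq_sum_le_card_mul_sum_sq (s := Finset.range N) (f := b)
      simpa using this
    nlinarith

end Pool.Agent.Helper40.Conv
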