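import Mathlib

/-!
Definitions used in the statement on convergence groups.
-/

open Filter Topology

namespace Pool.Agent.Helper40.Mob

/-- the multiplicative difference `x ↦ θ^m(x) x⁻¹` in a group -/
def gdiff {G : Type*} [Group G] (θ : G → G) (m : ℕ) (x : G) : G := θ^[m] x * x⁻¹

/-- `G` acts on `M` as a (discrete) convergence group: every sequence of distinct elements of `G` has
a subsequence converging to some point `ξ` uniformly away from some point `ξ'` -/
def IsConvergenceAction (G M : Type*) [Group G] [MetricSpace M] [MulAction G M] : Prop :=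
  ∀ x : ℕ → G, Function.Injective x → ∃ ψ : ℕ → ℕ, StrictMono ψ ∧ ∃ ξ ξ' : M, ∀ ε > 0,
    ∀ᶠ n in atTop, ∀ m : M, ε ≤ dist m ξ' → dist (x (ψ n) • m) ξ < ε

end Pool.Agent.Helper40.Mob
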