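import Mathlib
import Pool.Agent.Helper40.Conv.CDefs

namespace Pool.Agent.Helper40.Conv

open Pool.Agent.Helper40.Mob

variable {G : Type*} [Group G]

theorem finite_aut {C : Type*} [Group C] (h : IsCyclic C) : Finite (MulAut C) := by
  have e := IsCyclic.mulAutMulEquiv C
  have h1 : Finite (ZMod (Nat.card C))ˣ := by
    cases hn : Nat.card C with
    | zero => exact inferInstanceAs (Finite ℤˣ)
    | succ n => infer_instance
  exact Finite.of_equiv _ e.symm.toEquiv

theorem cyc_periodic (hCT : ∀ a b c : G, b ≠ 1 → Commute a b → Commute b c → Commute a c)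
    (θ : G ≃* G) (d : ℕ) (c : G) (hc : c ≠ 1) (hcom : Commute (θ^[d] c) c)
    (hcyc : IsCyclic (Subgroup.centralizer ({c} : Set G))) :
    ∃ m : ℕ, 1 ≤ m ∧ θ^[d * m] c = c := by
  have hpow : ∀ (n : ℕ) (x : G), (θ ^ n : MulAut G) x = θ^[n] x := by
    intro n x
    induction n with
    | zero => rfl
    | succ n ih => rw [pow_succ', MulAut.mul_apply, ih, Function.iterate_succ', Function.comp_apply]
  set φ : MulAut G := θ ^ d with hφ
  have hφc : Commute (φ c) c := by rw [hφ, hpow]; exact hcom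
  have hφ1 : φ c ≠ 1 := fun h => hc (by simpa using h)
  have hmem : ∀ h : G, h ∈ Subgroup.centralizer ({c} : Set G) ↔ Commute h c := by
    intro h
    rw [Subgroup.mem_centralizer_singleton_iff]
    rfl
  have h1 : ∀ h : G, Commute h c → Commute (φ h) c := fun h hh =>
    hCT _ _ _ hφ1 (hh.map φ.toMonoidHom) hφc
  have h2 : ∀ h : G, Commute h c → Commute (φ.symm h) c := fun h hh => by
    have h3 := hCT _ _ _ hc hh hφc.symm
    have h4 := h3.map φ.symm.toMonoidHom
    simpa using h4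
  let f : MulAut (Subgroup.centralizer ({c} : Set G)) :=
    { toFun := fun h => ⟨φ h, (hmem _).2 (h1 _ ((hmem _).1 h.2))⟩
      invFun := fun h => ⟨φ.symm h, (hmem _).2 (h2 _ ((hmem _).1 h.2))⟩
      left_inv := fun h => by ext; simp
      right_inv := fun h => by ext; simp
      map_mul' := fun a b => by ext; simp }
  have hfin := finite_aut hcyc
  obtain ⟨m, hm, hfm⟩ := (isOfFinOrder_of_finite f).exists_pow_eq_one
  refine ⟨m, hm, ?_⟩
  have h3 : ∀ (n : ℕ) (x : Subgroup.centralizer ({c} : Set G)), (((f ^ n) x : _) : G) =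
      θ^[d * n] (x : G) := by
    intro n x
    induction n with
    | zero => rfl
    | succ n ih =>
      rw [pow_succ', MulAut.mul_apply]
      change φ (((f ^ n) x : _) : G) = _
      rw [ih, hφ, hpow, ← Function.iterate_add_apply, show d + d * n = d * (n + 1) by ring]
  have h4 := h3 m ⟨c, (hmem c).2 (Commute.refl c)⟩
  rw [hfm] at h4
  exact h4.symm

theorem cyc_cond (hCT : ∀ a b c : G, b ≠ 1 → Commute a b → Commute b c → Commute a c)
    (θ : G ≃* G) (hθ : ∀ (d : ℕ) (c : G), 1 ≤ d → c ≠ 1 → Commute (θ^[d] c) c →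
      IsCyclic (Subgroup.centralizer ({c} : Set G)) ∨
        ∃ m : ℕ, 1 ≤ m ∧ ∃ k : ℕ, (gdiff θ (d * m))^[k] c = 1) (d : ℕ) (c : G) (hd : 1 ≤ d)
    (h : Commute (θ^[d] c) c) :
      ∃ m : ℕ, 1 ≤ m ∧ ∃ k : ℕ, (gdiff θ (d * m))^[k] c = 1 := by
  by_cases hc : c = 1
  · exact ⟨1, le_rfl, 0, by simpa using hc⟩
  · rcases hθ d c hd hc h with h1 | h1
    · obtain ⟨m, hm, h2⟩ := cyc_periodic hCT θ d c hc h h1
      exact ⟨m, hm, 1, by simp [gdiff, h2]⟩
    · exact h1

end Pool.Agent.Helper40.Conv
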