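import Mathlib

open Filter Topology

set_option linter.unusedSectionVars false

namespace Pool.Agent.Helper40.Conv

variable {G : Type*} [Group G] {M : Type*} [MetricSpace M] [MulAction G M]

/-- finite sets of indices of a convergence sequence with a four-colouring of the space such that for
the colours 0 and 1 the coloured sets, and for the colours 2 and 3 their images, are disjoint -/
def Coloured (x : ℕ → G) (S : Finset ℕ) (κ : ℕ → M → Fin 4) : Prop :=
  ∀ n ∈ S, ∀ n' ∈ S, n ≠ n' → ∀ m m' : M,
    (κ n m = 0 → κ n' m' = 0 → m ≠ m') ∧ (κ n m = 1 → κ n' m' = 1 → m ≠ m') ∧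
    (κ n m = 2 → κ n' m' = 2 → x n • m ≠ x n' • m') ∧
    (κ n m = 3 → κ n' m' = 3 → x n • m ≠ x n' • m')

theorem select (hcont : ∀ g : G, Continuous (fun m : M => g • m)) (x : ℕ → G) (ξ ξ' ζ η : M)
    (h1 : ∀ ε > 0, ∀ᶠ n in atTop, ∀ m, ε ≤ dist m ξ' → dist (x n • m) ξ < ε)
    (h2 : Tendsto (fun n => x n • ξ') atTop (𝓝 ζ)) (h2' : ∀ n, x n • ξ' ≠ ζ)
    (h3 : Tendsto (fun n => (x n)⁻¹ • ξ) atTop (𝓝 η)) (h3' : ∀ n, (x n)⁻¹ • ξ ≠ η) :
    ∀ (k n₀ : ℕ) (r : ℝ), 0 < r → ∃ S : Finset ℕ, S.card = k ∧ (∀ n ∈ S, n₀ ≤ n) ∧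
      ∃ κ : ℕ → M → Fin 4, (∀ n ∈ S, ∀ m, (κ n m = 0 → dist m η < r) ∧
        (κ n m = 1 → dist m ξ' < r) ∧ (κ n m = 2 → dist (x n • m) ξ < r) ∧
        (κ n m = 3 → dist (x n • m) ζ < r)) ∧ Coloured x S κ := by
  intro k
  induction k with
  | zero =>
    intro n₀ r _
    exact ⟨∅, rfl, by simp, fun _ _ => 0, by simp, by intro n hn; simp at hn⟩
  | succ k ih =>
    intro n₀ r hr
    have e2 := h2.eventually (Metric.ball_mem_nhds ζ (half_pos hr))
    have e3 := h3.eventually (Metric.ball_mem_nhds η (half_pos hr))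
    obtain ⟨n, hn0, hn1, hn2, hn3⟩ :=
      ((eventually_ge_atTop n₀).and ((h1 r hr).and (e2.and e3))).exists
    set d := dist ((x n)⁻¹ • ξ) η with hd
    set d' := dist (x n • ξ') ζ with hd'
    have hdpos : 0 < d := dist_pos.2 (h3' n)
    have hd'pos : 0 < d' := dist_pos.2 (h2' n)
    have hc1 : ContinuousAt (fun m : M => x n • m) ξ' := (hcont (x n)).continuousAt
    have hc2 : ContinuousAt (fun m : M => (x n)⁻¹ • m) ξ := (hcont (x n)⁻¹).continuousAt
    obtain ⟨b, hb, hb1⟩ := Metric.continuousAt_iff.1 hc1 (d' / 2) (half_pos hd'pos)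
    obtain ⟨e, he, he1⟩ := Metric.continuousAt_iff.1 hc2 (d / 2) (half_pos hdpos)
    set r' := min r (min (min (d / 2) (d' / 2)) (min b e)) with hr'
    have hr'pos : 0 < r' := by
      simp only [hr', lt_min_iff]
      exact ⟨hr, ⟨half_pos hdpos, half_pos hd'pos⟩, hb, he⟩
    have hr'r : r' ≤ r := min_le_left _ _
    have hr'd : r' ≤ d / 2 := (min_le_right _ _).trans ((min_le_left _ _).trans (min_le_left _ _))
    have hr'd' : r' ≤ d' / 2 :=
      (min_le_right _ _).trans ((min_le_left _ _).trans (min_le_right _ _))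
    have hr'b : r' ≤ b := (min_le_right _ _).trans ((min_le_right _ _).trans (min_le_left _ _))
    have hr'e : r' ≤ e := (min_le_right _ _).trans ((min_le_right _ _).trans (min_le_right _ _))
    obtain ⟨S, hS1, hS2, κ, hκ1, hκ2⟩ := ih (n + 1) r' hr'pos
    have hnS : n ∉ S := fun h => by have := hS2 n h; omega
    classical
    let κn : M → Fin 4 := fun m => if dist m ((x n)⁻¹ • ξ) < d / 2 then 0 else
      if dist m ξ' < b then 3 else if dist m ξ' < r then 1 else 2
    have k0 : ∀ m, κn m = 0 → dist m ((x n)⁻¹ • ξ) < d / 2 := by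
      intro m hm
      by_contra h
      simp only [κn, if_neg h] at hm
      split_ifs at hm <;> exact absurd hm (by decide)
    have k3 : ∀ m, κn m = 3 → dist m ξ' < b := by
      intro m hm
      by_contra h
      simp only [κn, if_neg h] at hm
      split_ifs at hm <;> exact absurd hm (by decide)
    have k1 : ∀ m, κn m = 1 → dist m ξ' < r ∧ ¬ dist m ξ' < b := by
      intro m hm
      simp only [κn] at hm
      split_ifs at hm with h4 h5 h6
      · exact absurd hm (by decide)
      · exact absurd hm (by decide)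
      · exact ⟨h6, h5⟩
      · exact absurd hm (by decide)
    have k2 : ∀ m, κn m = 2 → ¬ dist m ξ' < r ∧ ¬ dist m ((x n)⁻¹ • ξ) < d / 2 := by
      intro m hm
      simp only [κn] at hm
      split_ifs at hm with h4 h5 h6
      · exact absurd hm (by decide)
      · exact absurd hm (by decide)
      · exact absurd hm (by decide)
      · exact ⟨h6, h4⟩
    -- disjointness of n from the others
    have key : ∀ n' ∈ S, ∀ m m' : M,
        (κn m = 0 → κ n' m' = 0 → m ≠ m') ∧ (κn m = 1 → κ n' m' = 1 → m ≠ m') ∧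
        (κn m = 2 → κ n' m' = 2 → x n • m ≠ x n' • m') ∧
        (κn m = 3 → κ n' m' = 3 → x n • m ≠ x n' • m') := by
      intro n' hn' m m'
      obtain ⟨q0, q1, q2, q3⟩ := hκ1 n' hn' m'
      refine ⟨fun a b' => ?_, fun a b' => ?_, fun a b' => ?_, fun a b' => ?_⟩
      · rintro rfl
        have a1 := k0 m a
        have a2 := q0 b'
        have a3 : d ≤ dist m ((x n)⁻¹ • ξ) + dist m η := by
          rw [dist_comm m]
          exact dist_triangle _ _ _
        linarith
      · rintro rfl
        have a1 := (k1 m a).2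
        have a2 := q1 b'
        exact a1 (a2.trans_le hr'b)
      · intro heq
        have a1 := (k2 m a).2
        have a2 := q2 b'
        rw [← heq] at a2
        have a3 := he1 (a2.trans_le hr'e)
        rw [inv_smul_smul] at a3
        exact a1 a3
      · intro heq
        have a1 := hb1 (k3 m a)
        have a2 := q3 b'
        rw [← heq] at a2
        have a3 : d' ≤ dist (x n • m) (x n • ξ') + dist (x n • m) ζ := by
          rw [dist_comm (x n • m)]
          exact dist_triangle _ _ _
        linarith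
    refine ⟨insert n S, by rw [Finset.card_insert_of_notMem hnS, hS1], ?_,
      Function.update κ n κn, ?_, ?_⟩
    · intro n' hn'
      rcases Finset.mem_insert.1 hn' with rfl | h
      · exact hn0
      · have := hS2 n' h; omega
    · intro n' hn' m
      rcases Finset.mem_insert.1 hn' with rfl | h
      · rw [Function.update_self]
        refine ⟨fun a => ?_, fun a => ?_, fun a => ?_, fun a => ?_⟩
        · have a1 := k0 m a
          have a3 : dist m η ≤ dist m ((x n')⁻¹ • ξ) + d := dist_triangle _ _ _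
          linarith
        · exact (k1 m a).1
        · exact hn1 m (not_lt.1 (k2 m a).1)
        · have a1 := hb1 (k3 m a)
          have a3 : dist (x n' • m) ζ ≤ dist (x n' • m) (x n' • ξ') + d' := dist_triangle _ _ _
          linarith
      · have hne : n' ≠ n := fun h' => hnS (h' ▸ h)
        rw [Function.update_of_ne hne]
        obtain ⟨q0, q1, q2, q3⟩ := hκ1 n' h m
        exact ⟨fun a => (q0 a).trans_le hr'r, fun a => (q1 a).trans_le hr'r,
          fun a => (q2 a).trans_le hr'r, fun a => (q3 a).trans_le hr'r⟩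
    · intro n₁ hn₁ n₂ hn₂ hne m m'
      rcases Finset.mem_insert.1 hn₁ with rfl | h₁
      · rcases Finset.mem_insert.1 hn₂ with rfl | h₂
        · exact absurd rfl hne
        · rw [Function.update_self, Function.update_of_ne hne.symm]
          exact key n₂ h₂ m m'
      · have hne₁ : n₁ ≠ n := fun h' => hnS (h' ▸ h₁)
        rcases Finset.mem_insert.1 hn₂ with rfl | h₂
        · rw [Function.update_self, Function.update_of_ne hne₁]
          obtain ⟨q0, q1, q2, q3⟩ := key n₁ h₁ m' m
          exact ⟨fun a b => (q0 b a).symm, fun a b => (q1 b a).symm, fun a b => (q2 b a).symm,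
            fun a b => (q3 b a).symm⟩
        · have hne₂ : n₂ ≠ n := fun h' => hnS (h' ▸ h₂)
          rw [Function.update_of_ne hne₁, Function.update_of_ne hne₂]
          exact hκ2 n₁ h₁ n₂ h₂ hne m m'

end Pool.Agent.Helper40.Conv
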