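import Mathlib
import Pool.Agent.Helper40.Conv.Select

open Filter Topology
open scoped InnerProductSpace ComplexConjugate

set_option linter.unusedSectionVars false

namespace Pool.Agent.Helper40.Conv

variable {G : Type*} [Group G] {M : Type*} [MetricSpace M] [MulAction G M]
variable {H : Type*} [NormedAddCommGroup H] [InnerProductSpace ℂ H]

theorem norm_sq_sum_orth (y : ℕ → H) (S : Finset ℕ)
    (h : ∀ n ∈ S, ∀ n' ∈ S, n ≠ n' → inner ℂ (y n) (y n') = 0) :
    ‖∑ n ∈ S, y n‖ ^ 2 = ∑ n ∈ S, ‖y n‖ ^ 2 := by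
  classical
  induction S using Finset.induction_on with
  | empty => simp
  | insert a S ha ih =>
    rw [Finset.sum_insert ha, Finset.sum_insert ha]
    have h1 : inner ℂ (y a) (∑ n ∈ S, y n) = 0 := by
      rw [inner_sum]
      apply Finset.sum_eq_zero
      intro n hn
      apply h a (Finset.mem_insert_self _ _) n (Finset.mem_insert_of_mem hn)
      rintro rfl
      exact ha hn
    have h2 := norm_add_sq_eq_norm_sq_add_norm_sq_of_inner_eq_zero (𝕜 := ℂ) (y a) (∑ n ∈ S, y n) h1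
    have h3 := ih fun n hn n' hn' => h n (Finset.mem_insert_of_mem hn) n'
      (Finset.mem_insert_of_mem hn')
    nlinarith [h2, h3]

theorem norm_sq_orthonormal {e : G → H} (he : Orthonormal ℂ e) (F : Finset G) (l : G → ℂ) :
    ‖∑ h ∈ F, l h • e h‖ ^ 2 = ∑ h ∈ F, ‖l h‖ ^ 2 := by
  have h1 := he.inner_sum l l F
  rw [inner_self_eq_norm_sq_to_K] at h1
  have h2 : ((‖∑ h ∈ F, l h • e h‖ ^ 2 : ℝ) : ℂ) = ((∑ h ∈ F, ‖l h‖ ^ 2 : ℝ) : ℂ) := by
    push_cast
    refine h1.trans (Finset.sum_congr rfl fun h _ => ?_)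
    rw [mul_comm, Complex.mul_conj, Complex.normSq_eq_norm_sq]
    push_cast
    rfl
  exact_mod_cast h2

theorem norm_bound_vec {e : G → H} (he : Orthonormal ℂ e) (T : ℕ → H →L[ℂ] H) (x : ℕ → G)
    (hTi : ∀ n v, ‖T n v‖ = ‖v‖)
    (hT : ∀ n h, ∃ c : ℂ, T n (e h) = c • e (x n * h))
    (o : M) (S : Finset ℕ) (κ : ℕ → M → Fin 4) (hκ : Coloured x S κ) (c : ℕ → ℂ)
    (F : Finset G) (l : G → ℂ) :
    ‖∑ n ∈ S, c n • T n (∑ h ∈ F, l h • e h)‖ ≤
      4 * (√(∑ n ∈ S, ‖c n‖ ^ 2) * ‖∑ h ∈ F, l h • e h‖) := by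
  classical
  set v := ∑ h ∈ F, l h • e h with hv
  let w : ℕ → Fin 4 → H := fun n j => ∑ h ∈ F.filter (fun h => κ n (h • o) = j), l h • e h
  have hw1 : ∀ n, ∑ j, w n j = v := by
    intro n
    simp only [w, hv]
    exact Finset.sum_fiberwise F (fun h => κ n (h • o)) (fun h => l h • e h)
  have hw2 : ∀ n j, ‖w n j‖ ^ 2 = ∑ h ∈ F.filter (fun h => κ n (h • o) = j), ‖l h‖ ^ 2 :=
    fun n j => norm_sq_orthonormal he _ _
  have hv2 : ‖v‖ ^ 2 = ∑ h ∈ F, ‖l h‖ ^ 2 := norm_sq_orthonormal he _ _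
  have hwv : ∀ n j, ‖w n j‖ ^ 2 ≤ ‖v‖ ^ 2 := by
    intro n j
    rw [hw2, hv2]
    exact Finset.sum_le_sum_of_subset_of_nonneg (Finset.filter_subset _ _)
      fun h _ _ => by positivity
  -- the four parts
  have hpart : ∀ j : Fin 4, ‖∑ n ∈ S, c n • T n (w n j)‖ ≤ √(∑ n ∈ S, ‖c n‖ ^ 2) * ‖v‖ := by
    intro j
    by_cases hj : j = 0 ∨ j = 1
    · have hsum : ∑ n ∈ S, ‖w n j‖ ^ 2 ≤ ‖v‖ ^ 2 := by
        simp only [hw2]
        rw [hv2]
        have h1 : ∀ n, ∑ h ∈ F.filter (fun h => κ n (h • o) = j), ‖l h‖ ^ 2 =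
            ∑ h ∈ F, if κ n (h • o) = j then ‖l h‖ ^ 2 else 0 := fun n => Finset.sum_filter _ _
        simp only [h1]
        rw [Finset.sum_comm]
        apply Finset.sum_le_sum
        intro h _
        by_cases hex : ∃ n ∈ S, κ n (h • o) = j
        · obtain ⟨n, hn, hnj⟩ := hex
          rw [Finset.sum_eq_single_of_mem n hn]
          · rw [if_pos hnj]
          · intro n' hn' hne
            rw [if_neg]
            intro hn'j
            obtain ⟨q0, q1, _, _⟩ := hκ n' hn' n hn hne (h • o) (h • o)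
            rcases hj with hj | hj
            · exact q0 (hn'j.trans hj) (hnj.trans hj) rfl
            · exact q1 (hn'j.trans hj) (hnj.trans hj) rfl
        · rw [Finset.sum_eq_zero]
          · positivity
          · intro n hn
            rw [if_neg]
            intro h'
            exact hex ⟨n, hn, h'⟩
      calc _ ≤ ∑ n ∈ S, ‖c n‖ * ‖w n j‖ := by
            refine (norm_sum_le _ _).trans (Finset.sum_le_sum fun n _ => ?_)
            rw [norm_smul, hTi]
        _ ≤ √(∑ n ∈ S, ‖c n‖ ^ 2) * √(∑ n ∈ S, ‖w n j‖ ^ 2) :=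
            Real.sum_mul_le_sqrt_mul_sqrt _ _ _
        _ ≤ √(∑ n ∈ S, ‖c n‖ ^ 2) * ‖v‖ := by
            gcongr
            rw [Real.sqrt_le_left (norm_nonneg _)]
            exact hsum
    · have hj2 : j = 2 ∨ j = 3 := by
        fin_cases j <;> simp_all
      have hTw : ∀ n, T n (w n j) = ∑ h ∈ F.filter (fun h => κ n (h • o) = j), l h • T n (e h) := by
        intro n
        simp only [w, map_sum, map_smul]
      have horth : ∀ n ∈ S, ∀ n' ∈ S, n ≠ n' →
          inner ℂ (c n • T n (w n j)) (c n' • T n' (w n' j)) = 0 := by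
        intro n hn n' hn' hne
        rw [inner_smul_left, inner_smul_right, hTw, hTw, sum_inner]
        rw [Finset.sum_eq_zero, mul_zero, mul_zero]
        intro h hh
        rw [inner_sum]
        apply Finset.sum_eq_zero
        intro h' hh'
        have hh2 := (Finset.mem_filter.1 hh).2
        have hh2' := (Finset.mem_filter.1 hh').2
        obtain ⟨a, ha⟩ := hT n h
        obtain ⟨a', ha'⟩ := hT n' h'
        rw [ha, ha', inner_smul_left, inner_smul_right, inner_smul_left, inner_smul_right]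
        have hne2 : x n * h ≠ x n' * h' := by
          intro heq
          have h5 : x n • (h • o) = x n' • (h' • o) := by
            rw [smul_smul, smul_smul, heq]
          obtain ⟨_, _, q2, q3⟩ := hκ n hn n' hn' hne (h • o) (h' • o)
          rcases hj2 with hj | hj
          · exact q2 (hh2.trans hj) (hh2'.trans hj) h5
          · exact q3 (hh2.trans hj) (hh2'.trans hj) h5
        rw [he.2 hne2]
        simp
      have h1 : ‖∑ n ∈ S, c n • T n (w n j)‖ ^ 2 ≤ (√(∑ n ∈ S, ‖c n‖ ^ 2) * ‖v‖) ^ 2 := by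
        rw [norm_sq_sum_orth _ S horth, mul_pow, Real.sq_sqrt (by positivity), Finset.sum_mul]
        apply Finset.sum_le_sum
        intro n _
        rw [norm_smul, mul_pow, hTi]
        gcongr ?_ * ?_
        exact hwv n j
      exact (sq_le_sq₀ (norm_nonneg _) (by positivity)).1 h1
  have hsplit : ∑ n ∈ S, c n • T n v = ∑ j, ∑ n ∈ S, c n • T n (w n j) := by
    rw [Finset.sum_comm]
    apply Finset.sum_congr rfl
    intro n _
    rw [← hw1 n, map_sum, Finset.smul_sum]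
  rw [hsplit]
  calc _ ≤ ∑ j : Fin 4, ‖∑ n ∈ S, c n • T n (w n j)‖ := norm_sum_le _ _
    _ ≤ ∑ j : Fin 4, √(∑ n ∈ S, ‖c n‖ ^ 2) * ‖v‖ := Finset.sum_le_sum fun j _ => hpart j
    _ = _ := by simp

theorem norm_bound [CompleteSpace H] {e : G → H} (he : Orthonormal ℂ e)
    (hd : Dense ((Submodule.span ℂ (Set.range e) : Submodule ℂ H) : Set H))
    (T : ℕ → H →L[ℂ] H) (x : ℕ → G) (hTi : ∀ n v, ‖T n v‖ = ‖v‖)
    (hT : ∀ n h, ∃ c : ℂ, T n (e h) = c • e (x n * h))
    (o : M) (S : Finset ℕ) (κ : ℕ → M → Fin 4) (hκ : Coloured x S κ) (c : ℕ → ℂ) :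
    ‖∑ n ∈ S, c n • T n‖ ≤ 4 * √(∑ n ∈ S, ‖c n‖ ^ 2) := by
  apply ContinuousLinearMap.opNorm_le_bound _ (by positivity)
  intro v
  have hcl : IsClosed {v : H | ‖(∑ n ∈ S, c n • T n) v‖ ≤ 4 * √(∑ n ∈ S, ‖c n‖ ^ 2) * ‖v‖} :=
    isClosed_le (by fun_prop) (by fun_prop)
  have hsub : ((Submodule.span ℂ (Set.range e) : Submodule ℂ H) : Set H) ⊆
      {v : H | ‖(∑ n ∈ S, c n • T n) v‖ ≤ 4 * √(∑ n ∈ S, ‖c n‖ ^ 2) * ‖v‖} := by
    intro v hv
    obtain ⟨l, rfl⟩ := (Finsupp.mem_span_range_iff_exists_finsupp).1 hv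
    have h1 := norm_bound_vec he T x hTi hT o S κ hκ c l.support l
    change ‖(∑ n ∈ S, c n • T n) _‖ ≤ _
    rw [Finsupp.sum, mul_assoc]
    refine le_trans (le_of_eq ?_) h1
    rw [sum_apply]
    rfl
  exact closure_minimal hsub hcl (hd v)

end Pool.Agent.Helper40.Conv
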