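import Mathlib
import Pool.Agent.Helper40.Conv.CDefs

open Filter Topology

set_option linter.unusedSectionVars false

namespace Pool.Agent.Helper40.Conv

open Pool.Agent.Helper40.Mob

variable {G : Type*} [Group G]

/-- the orbit of `g` is of unipotent type -/
def QU (θ : G ≃* G) (g : G) : Prop :=
  ∃ M : ℕ, 1 ≤ M ∧ ∃ k : ℕ, (∀ i j, 1 ≤ i → 1 ≤ j →
    Commute ((gdiff θ M)^[i] g) ((gdiff θ M)^[j] g)) ∧ (gdiff θ M)^[k + 1] g = 1

theorem gdiff_one (θ : G ≃* G) (M : ℕ) : gdiff θ M 1 = 1 := by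
  rw [gdiff, iterate_map_one, inv_one, mul_one]

theorem gdiff_iter_one (θ : G ≃* G) (M i : ℕ) : (gdiff θ M)^[i] (1 : G) = 1 := by
  induction i with
  | zero => rfl
  | succ i ih => rw [Function.iterate_succ', Function.comp_apply, ih, gdiff_one]

theorem QU_periodic (θ : G ≃* G) (g : G) (d : ℕ) (hd : 1 ≤ d) (h : θ^[d] g = g) : QU θ g := by
  have h1 : gdiff θ d g = 1 := by rw [gdiff, h, mul_inv_cancel]
  refine ⟨d, hd, 0, fun i j hi hj => ?_, by simpa using h1⟩
  obtain ⟨i', rfl⟩ := Nat.exists_eq_add_of_le' hi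
  rw [Function.iterate_succ_apply, h1, gdiff_iter_one]
  exact Commute.one_left _

theorem QU_of_pair (hCT : ∀ a b c : G, b ≠ 1 → Commute a b → Commute b c → Commute a c)
    (θ : G ≃* G) (hθ : ∀ (d : ℕ) (c : G), 1 ≤ d → Commute (θ^[d] c) c →
      ∃ m : ℕ, 1 ≤ m ∧ ∃ k : ℕ, (gdiff θ (d * m))^[k] c = 1)
    (g : G) (n n' d : ℕ) (hd : 1 ≤ d) (hne : θ^[n] g ≠ θ^[n'] g) (y b : G) (hb : b ≠ 1)
    (h1 : Commute b (y⁻¹ * θ^[n] g)) (h2 : Commute b (y⁻¹ * θ^[n + d] g))
    (h3 : Commute b (y⁻¹ * θ^[n'] g)) (h4 : Commute b (y⁻¹ * θ^[n' + d] g)) : QU θ g := by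
  have hinj : ∀ j : ℕ, Function.Injective (θ^[j]) := fun j => θ.injective.iterate j
  have hcomm : ∀ (j : ℕ) (a c : G), Commute a c → Commute (θ^[j] a) (θ^[j] c) := by
    intro j a c h
    change θ^[j] a * θ^[j] c = θ^[j] c * θ^[j] a
    rw [← iterate_map_mul, ← iterate_map_mul, h.eq]
  set xn := θ^[n] g with hxn
  set b' := xn * b * xn⁻¹ with hb'
  have hb'1 : b' ≠ 1 := by
    intro h
    apply hb
    rw [hb'] at h
    have h5 : xn * b = xn := by
      have := mul_inv_eq_one.1 h
      exact this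
    exact mul_eq_left.1 h5
  have hzw : ∀ z w : G, Commute b (y⁻¹ * z) → Commute b (y⁻¹ * w) → Commute (z * w⁻¹) b' := by
    intro z w hz hw
    have e1 : z * w⁻¹ = xn * (((y⁻¹ * xn)⁻¹ * (y⁻¹ * z)) * ((y⁻¹ * w)⁻¹ * (y⁻¹ * xn))) * xn⁻¹ := by
      group
    have e2 : Commute b (((y⁻¹ * xn)⁻¹ * (y⁻¹ * z)) * ((y⁻¹ * w)⁻¹ * (y⁻¹ * xn))) :=
      (h1.inv_right.mul_right hz).mul_right (hw.inv_right.mul_right h1)
    rw [e1, hb']
    exact (e2.symm.conj xn)
  set e₁ := θ^[n'] g * xn⁻¹ with he₁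
  have he₁b : Commute e₁ b' := hzw _ _ h3 h1
  have he₁1 : e₁ ≠ 1 := by
    intro h
    apply hne
    exact (mul_inv_eq_one.1 h).symm
  have hθe₁ : θ^[d] e₁ = θ^[n' + d] g * (θ^[n + d] g)⁻¹ := by
    rw [he₁, hxn, iterate_map_mul, iterate_map_inv, ← Function.iterate_add_apply,
      ← Function.iterate_add_apply, add_comm d n', add_comm d n]
  have hθe₁b : Commute (θ^[d] e₁) b' := by
    rw [hθe₁]
    exact hzw _ _ h4 h2
  have hD0b : Commute (θ^[n + d] g * xn⁻¹) b' := hzw _ _ h2 h1
  -- pull back to time zero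
  obtain ⟨e, he⟩ : ∃ e, θ^[n] e = e₁ := (θ.surjective.iterate n) e₁
  have he1 : e ≠ 1 := by
    intro h
    apply he₁1
    rw [← he, h, iterate_map_one]
  have hback : ∀ a c : G, Commute (θ^[n] a) (θ^[n] c) → Commute a c := by
    intro a c h
    apply hinj n
    rw [iterate_map_mul, iterate_map_mul, h.eq]
  have hee : Commute (θ^[d] e) e := by
    apply hback
    rw [← Function.iterate_add_apply, add_comm, Function.iterate_add_apply, he]
    exact hCT _ _ _ hb'1 hθe₁b he₁b.symm
  set c₀ := θ^[d] g * g⁻¹ with hc₀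
  have hc₀n : θ^[n] c₀ = θ^[n + d] g * xn⁻¹ := by
    rw [hc₀, iterate_map_mul, iterate_map_inv, ← Function.iterate_add_apply]
  have hc₀e : Commute c₀ e := by
    apply hback
    rw [hc₀n, he]
    exact hCT _ _ _ hb'1 hD0b he₁b.symm
  have hθ1 : θ^[d] e ≠ 1 := by
    intro h
    apply he1
    apply hinj d
    rw [h, iterate_map_one]
  -- the centralizer of e
  have hCd : ∀ z, Commute z e → Commute (θ^[d] z) e := fun z hz =>
    hCT _ _ _ hθ1 (hcomm d _ _ hz) hee
  have hCj : ∀ (j : ℕ) (z : G), Commute z e → Commute (θ^[d * j] z) e := by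
    intro j
    induction j with
    | zero => intro z hz; simpa using hz
    | succ j ih =>
      intro z hz
      rw [mul_add, mul_one, add_comm, Function.iterate_add_apply]
      exact hCd _ (ih z hz)
  have hab : ∀ z w, Commute z e → Commute w e → Commute z w := fun z w hz hw =>
    hCT _ _ _ he1 hz hw.symm
  obtain ⟨m, hm, k, hk⟩ := hθ d c₀ hd (hab _ _ (hCd _ hc₀e) hc₀e)
  set M := d * m with hM
  set F := gdiff (⇑θ) M with hF
  have hFe : ∀ z, Commute z e → Commute (F z) e := fun z hz =>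
    (hCj m z hz).mul_left hz.inv_left
  have hFie : ∀ (i : ℕ) (z : G), Commute z e → Commute (F^[i] z) e := by
    intro i
    induction i with
    | zero => intro z hz; exact hz
    | succ i ih =>
      intro z hz
      rw [Function.iterate_succ_apply']
      exact hFe _ (ih z hz)
  have hFmul : ∀ z w, Commute z e → Commute w e → F (z * w) = F z * F w := by
    intro z w hz hw
    rw [hF, gdiff, gdiff, gdiff, iterate_map_mul, mul_inv_rev]
    have h5 : Commute (θ^[M] w * w⁻¹) z⁻¹ :=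
      hab _ _ ((hCj m w hw).mul_left hw.inv_left) hz.inv_left
    calc θ^[M] z * θ^[M] w * (w⁻¹ * z⁻¹) = θ^[M] z * ((θ^[M] w * w⁻¹) * z⁻¹) := by group
      _ = θ^[M] z * (z⁻¹ * (θ^[M] w * w⁻¹)) := by rw [h5.eq]
      _ = _ := by group
  have hFimul : ∀ (i : ℕ) (z w : G), Commute z e → Commute w e →
      F^[i] (z * w) = F^[i] z * F^[i] w := by
    intro i
    induction i with
    | zero => intro z w _ _; rfl
    | succ i ih =>
      intro z w hz hw
      rw [Function.iterate_succ_apply, hFmul z w hz hw, ih _ _ (hFe z hz) (hFe w hw),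
        Function.iterate_succ_apply, Function.iterate_succ_apply]
  have hFθ : ∀ z, F (θ^[d] z) = θ^[d] (F z) := by
    intro z
    rw [hF, gdiff, gdiff, iterate_map_mul, iterate_map_inv, ← Function.iterate_add_apply,
      ← Function.iterate_add_apply, add_comm]
  have hFiθ : ∀ (i : ℕ) (z : G), F^[i] (θ^[d] z) = θ^[d] (F^[i] z) := by
    intro i
    induction i with
    | zero => intro z; rfl
    | succ i ih =>
      intro z
      rw [Function.iterate_succ_apply, hFθ, ih, Function.iterate_succ_apply]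
  have hP : ∀ j : ℕ, Commute (θ^[d * j] g * g⁻¹) e ∧ F^[k] (θ^[d * j] g * g⁻¹) = 1 := by
    intro j
    induction j with
    | zero =>
      constructor
      · simp
      · simp only [mul_zero, Function.iterate_zero, id, mul_inv_cancel]
        exact gdiff_iter_one θ M k
    | succ j ih =>
      have h5 : θ^[d * (j + 1)] g * g⁻¹ = θ^[d] (θ^[d * j] g * g⁻¹) * c₀ := by
        rw [iterate_map_mul, iterate_map_inv, ← Function.iterate_add_apply, hc₀]
        rw [show d + d * j = d * (j + 1) by ring]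
        group
      rw [h5]
      refine ⟨(hCd _ ih.1).mul_left hc₀e, ?_⟩
      rw [hFimul k _ _ (hCd _ ih.1) hc₀e, hFiθ, ih.2, iterate_map_one, one_mul, hk]
  have hFg : F g = θ^[d * m] g * g⁻¹ := rfl
  refine ⟨M, Nat.mul_pos hd hm, k, fun i j hi hj => ?_, ?_⟩
  · obtain ⟨i', rfl⟩ := Nat.exists_eq_add_of_le' hi
    obtain ⟨j', rfl⟩ := Nat.exists_eq_add_of_le' hj
    rw [Function.iterate_succ_apply, Function.iterate_succ_apply]
    exact hab _ _ (hFie _ _ (hP m).1) (hFie _ _ (hP m).1)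
  · rw [Function.iterate_succ_apply]
    exact (hP m).2

/-- an infinite orbit that is not covered by finitely many cosets of centralizers contains an infinite
sequence without collinear triples -/
theorem exists_generic (x : ℕ → G) (hx : Function.Injective x)
    (hnc : ∀ L : Finset (G × G), (∀ p ∈ L, p.2 ≠ 1) → ∃ n, ∀ p ∈ L, ¬ Commute p.2 (p.1⁻¹ * x n)) :
    ∃ ψ : ℕ → ℕ, StrictMono ψ ∧ ∀ i j k, i < j → j < k →
      ¬ Commute ((x (ψ i))⁻¹ * x (ψ j)) ((x (ψ i))⁻¹ * x (ψ k)) := by
  classical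
  have hb0 : (x 0)⁻¹ * x 1 ≠ 1 := by
    intro h
    have := hx (inv_mul_eq_one.1 h)
    omega
  have hstep : ∀ T : Finset ℕ, ∃ n, (∀ t ∈ T, t < n) ∧ ∀ i ∈ T, ∀ j ∈ T, i ≠ j →
      ¬ Commute ((x i)⁻¹ * x j) ((x i)⁻¹ * x n) := by
    intro T
    let L : Finset (G × G) := ((T ×ˢ T).filter (fun q => q.1 ≠ q.2)).image
      (fun q => (x q.1, (x q.1)⁻¹ * x q.2)) ∪
      (Finset.range (T.sup id + 1)).image (fun m => (x m, (x 0)⁻¹ * x 1))
    obtain ⟨n, hn⟩ := hnc L (by
      intro p hp
      rcases Finset.mem_union.1 hp with hp | hp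
      · obtain ⟨q, hq, rfl⟩ := Finset.mem_image.1 hp
        intro h
        exact (Finset.mem_filter.1 hq).2 (hx (inv_mul_eq_one.1 h))
      · obtain ⟨q, hq, rfl⟩ := Finset.mem_image.1 hp
        exact hb0)
    refine ⟨n, fun t ht => ?_, fun i hi j hj hij => ?_⟩
    · by_contra hlt
      have h1 : n < T.sup id + 1 := by
        have : t ≤ T.sup id := Finset.le_sup (f := id) ht
        omega
      have h2 := hn (x n, (x 0)⁻¹ * x 1) (Finset.mem_union_right _
        (Finset.mem_image.2 ⟨n, Finset.mem_range.2 h1, rfl⟩))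
      apply h2
      simp only
      rw [inv_mul_cancel]
      exact Commute.one_right _
    · exact hn (x i, (x i)⁻¹ * x j) (Finset.mem_union_left _
        (Finset.mem_image.2 ⟨(i, j), Finset.mem_filter.2 ⟨Finset.mem_product.2 ⟨hi, hj⟩, hij⟩, rfl⟩))
  choose pick hp1 hp2 using hstep
  let f : ℕ → Finset ℕ := fun k => Nat.rec ∅ (fun _ T => insert (pick T) T) k
  have hf : ∀ k, f (k + 1) = insert (pick (f k)) (f k) := fun k => rfl
  have hmem : ∀ i k, i < k → pick (f i) ∈ f k := by
    intro i k hik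
    induction k with
    | zero => omega
    | succ k ih =>
      rw [hf]
      rcases Nat.lt_succ_iff_lt_or_eq.1 hik with h | h
      · exact Finset.mem_insert_of_mem (ih h)
      · rw [h]; exact Finset.mem_insert_self _ _
  have hmono : ∀ i k, i < k → pick (f i) < pick (f k) := fun i k hik => hp1 _ _ (hmem i k hik)
  refine ⟨fun k => pick (f k), fun i k hik => hmono i k hik, fun i j k hij hjk => ?_⟩
  exact hp2 (f k) _ (hmem i k (hij.trans hjk)) _ (hmem j k hjk) (hmono i j hij).ne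

theorem dichotomy (hCT : ∀ a b c : G, b ≠ 1 → Commute a b → Commute b c → Commute a c)
    (θ : G ≃* G) (hθ : ∀ (d : ℕ) (c : G), 1 ≤ d → Commute (θ^[d] c) c →
      ∃ m : ℕ, 1 ≤ m ∧ ∃ k : ℕ, (gdiff θ (d * m))^[k] c = 1) (g : G) :
    QU θ g ∨ (Function.Injective (fun n => θ^[n] g) ∧ ∃ ψ : ℕ → ℕ, StrictMono ψ ∧
      ∀ i j k, i < j → j < k →
      ¬ Commute ((θ^[ψ i] g)⁻¹ * θ^[ψ j] g) ((θ^[ψ i] g)⁻¹ * θ^[ψ k] g)) := by
  classical
  by_cases hx : Function.Injective (fun n => θ^[n] g)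
  · by_cases hnc : ∀ L : Finset (G × G), (∀ p ∈ L, p.2 ≠ 1) →
        ∃ n, ∀ p ∈ L, ¬ Commute p.2 (p.1⁻¹ * θ^[n] g)
    · exact Or.inr ⟨hx, exists_generic (fun n => θ^[n] g) hx hnc⟩
    · left
      push Not at hnc
      obtain ⟨L, hL, hcov⟩ := hnc
      choose col hcol1 hcol2 using hcov
      let c : ℕ → L := fun n => ⟨col n, hcol1 n⟩
      set r := L.card with hr
      have hblock : ∀ m : ℕ, ∃ q : Fin (r + 1) × Fin (r + 1), q.1 < q.2 ∧
          c (m * (r + 1) + q.1) = c (m * (r + 1) + q.2) := by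
        intro m
        have h1 : Fintype.card L < Fintype.card (Fin (r + 1)) := by
          rw [Fintype.card_fin, Fintype.card_coe]; omega
        obtain ⟨a, b, hab, h2⟩ := Fintype.exists_ne_map_eq_of_card_lt
          (fun a : Fin (r + 1) => c (m * (r + 1) + a)) h1
        rcases lt_or_gt_of_ne hab with h3 | h3
        · exact ⟨(a, b), h3, h2⟩
        · exact ⟨(b, a), h3, h2.symm⟩
      choose q hq1 hq2 using hblock
      obtain ⟨m, m', hmm, heq⟩ := Finite.exists_ne_map_eq_of_infinite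
        (fun m : ℕ => (q m, c (m * (r + 1) + (q m).1)))
      have e1 : q m = q m' := congrArg Prod.fst heq
      have e2 : c (m * (r + 1) + (q m).1) = c (m' * (r + 1) + (q m').1) := congrArg Prod.snd heq
      set a := ((q m).1 : ℕ) with ha
      set b := ((q m).2 : ℕ) with hb
      have hab : a < b := hq1 m
      have ha' : ((q m').1 : ℕ) = a := by rw [← e1]
      have hb' : ((q m').2 : ℕ) = b := by rw [← e1]
      have e3 := hq2 m
      have e4 := hq2 m'
      rw [ha', hb'] at e4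
      rw [ha'] at e2
      change c (m * (r + 1) + a) = c (m * (r + 1) + b) at e3
      change c (m * (r + 1) + a) = c (m' * (r + 1) + a) at e2
      set p := col (m * (r + 1) + a) with hp
      have hcolp : ∀ n, c (m * (r + 1) + a) = c n → Commute p.2 (p.1⁻¹ * θ^[n] g) := by
        intro n hn
        have h5 : p = col n := congrArg Subtype.val hn
        rw [h5]
        exact hcol2 n
      refine QU_of_pair hCT θ hθ g (m * (r + 1) + a) (m' * (r + 1) + a) (b - a) (by omega) ?_
        p.1 p.2 (hL p (hcol1 _)) (hcolp _ rfl) ?_ (hcolp _ e2) ?_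
      · intro h5
        have h6 : m * (r + 1) + a = m' * (r + 1) + a := hx h5
        apply hmm
        exact Nat.eq_of_mul_eq_mul_right (Nat.succ_pos r) (Nat.add_right_cancel h6)
      · rw [show m * (r + 1) + a + (b - a) = m * (r + 1) + b by omega]
        exact hcolp _ e3
      · rw [show m' * (r + 1) + a + (b - a) = m' * (r + 1) + b by omega]
        exact hcolp _ (e2.trans e4)
  · left
    have h1 : ∃ n n', n < n' ∧ θ^[n] g = θ^[n'] g := by
      rw [Function.Injective] at hx
      push Not at hx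
      obtain ⟨a, b, h1, h2⟩ := hx
      rcases lt_or_gt_of_ne h2 with h3 | h3
      · exact ⟨a, b, h3, h1⟩
      · exact ⟨b, a, h3, h1.symm⟩
    obtain ⟨n, n', hnn, h2⟩ := h1
    apply QU_periodic θ g (n' - n) (by omega)
    apply θ.injective.iterate n
    rw [← Function.iterate_add_apply, Nat.add_sub_cancel' hnn.le, h2]

end Pool.Agent.Helper40.Conv
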