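import Mathlib
import Pool.Agent.Helper40.Conv.CDefs
import Pool.Agent.Helper40.Conv.Select

open Filter Topology

set_option linter.unusedSectionVars false

namespace Pool.Agent.Helper40.Conv

open Pool.Agent.Helper40.Mob

variable {G : Type*} [Group G] {M : Type*} [MetricSpace M] [MulAction G M]

theorem three_of_frequently {p : ℕ → Prop} (h : ∃ᶠ n in atTop, p n) :
    ∃ i j k, i < j ∧ j < k ∧ p i ∧ p j ∧ p k := by
  rw [frequently_atTop] at h
  obtain ⟨i, _, hi⟩ := h 0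
  obtain ⟨j, hj, hj'⟩ := h (i + 1)
  obtain ⟨k, hk, hk'⟩ := h (j + 1)
  exact ⟨i, j, k, by omega, by omega, hi, hj', hk'⟩

theorem exists_sets [CompactSpace M] (hconv : IsConvergenceAction G M)
    (hcont : ∀ g : G, Continuous (fun m : M => g • m))
    (hstab : ∀ (m : M) (g h : G), g • m = m → h • m = m → Commute g h)
    (x : ℕ → G) (hx : Function.Injective x)
    (hnc : ∀ i j k, i < j → j < k → ¬ Commute ((x i)⁻¹ * x j) ((x i)⁻¹ * x k)) :
    Nonempty M ∧ ∀ k : ℕ, ∃ S : Finset ℕ, S.card = k ∧ ∃ ι : ℕ → ℕ, Function.Injective ι ∧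
      ∃ κ : ℕ → M → Fin 4, Coloured (fun n => x (ι n)) S κ := by
  obtain ⟨ψ, hψ, ξ, ξ', h1⟩ := hconv x hx
  obtain ⟨ζ, -, φ₁, hφ₁, h2⟩ := isCompact_univ.tendsto_subseq
    (x := fun n => x (ψ n) • ξ') (fun n => Set.mem_univ _)
  obtain ⟨η, -, φ₂, hφ₂, h3⟩ := isCompact_univ.tendsto_subseq
    (x := fun n => (x (ψ (φ₁ n)))⁻¹ • ξ) (fun n => Set.mem_univ _)
  let ι : ℕ → ℕ := fun n => ψ (φ₁ (φ₂ n))
  have hι : StrictMono ι := hψ.comp (hφ₁.comp hφ₂)
  have g1 : ∀ᶠ n in atTop, x (ι n) • ξ' ≠ ζ := by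
    by_contra hcon
    rw [not_eventually] at hcon
    obtain ⟨i, j, k, hij, hjk, hi, hj, hk⟩ := three_of_frequently hcon
    rw [not_not] at hi hj hk
    apply hnc (ι i) (ι j) (ι k) (hι hij) (hι hjk)
    apply hstab ξ'
    · rw [mul_smul, hj, ← hi, inv_smul_smul]
    · rw [mul_smul, hk, ← hi, inv_smul_smul]
  have g2 : ∀ᶠ n in atTop, (x (ι n))⁻¹ • ξ ≠ η := by
    by_contra hcon
    rw [not_eventually] at hcon
    obtain ⟨i, j, k, hij, hjk, hi, hj, hk⟩ := three_of_frequently hcon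
    rw [not_not] at hi hj hk
    have e : ∀ n, (x (ι n))⁻¹ • ξ = η → x (ι n) • η = ξ := by
      intro n hn
      rw [← hn, smul_inv_smul]
    apply hnc (ι i) (ι j) (ι k) (hι hij) (hι hjk)
    apply hstab η
    · rw [mul_smul, e j hj, hi]
    · rw [mul_smul, e k hk, hi]
  obtain ⟨N, hN⟩ := eventually_atTop.1 (g1.and g2)
  refine ⟨⟨ξ⟩, fun k => ?_⟩
  have hshift : Tendsto (fun n : ℕ => n + N) atTop atTop := tendsto_add_atTop_nat N
  obtain ⟨S, hS, -, κ, -, hκ⟩ := select (M := M) hcont (fun n => x (ι (n + N))) ξ ξ' ζ η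
    (fun ε hε => by
      have h4 := h1 ε hε
      exact ((hφ₁.comp hφ₂).tendsto_atTop.comp hshift).eventually h4)
    ((h2.comp hφ₂.tendsto_atTop).comp hshift)
    (fun n => (hN (n + N) (by omega)).1)
    (h3.comp hshift)
    (fun n => (hN (n + N) (by omega)).2) k 0 1 one_pos
  exact ⟨S, hS, fun n => ι (n + N), fun a b hab => by
    have := hι.injective hab
    omega, κ, hκ⟩

end Pool.Agent.Helper40.Conv
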