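import Mathlib
import Pool.Agent.Helper40.Wiener7
import Pool.Agent.Helper40.QFree
import Pool.Agent.Helper40.Free.FDefs

open Filter Topology MeasureTheory Polynomial
open scoped InnerProductSpace ComplexConjugate FourierTransform ArithmeticFunction.Moebius

set_option linter.unusedSectionVars false

namespace Pool.Agent.Helper40.Conv

open Pool.Agent.Helper40.Wiener Pool.Agent.Helper40.QFree Pool.Agent.Helper40.Mob

universe u

variable {A : Type u} [CStarAlgebra A]

/-- unitaries commuting with `b` up to a scalar -/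
def RC (b : unitary A) : Subgroup (unitary A) where
  carrier := {a | ∃ θ : ℝ, (a : A) * (b : A) = (𝐞 θ : ℂ) • ((b : A) * (a : A))}
  mul_mem' := by
    rintro x y ⟨s, hs⟩ ⟨t, ht⟩
    refine ⟨s + t, ?_⟩
    rw [Submonoid.coe_mul, mul_assoc, ht, mul_smul_comm, ← mul_assoc, hs, smul_mul_assoc,
      smul_smul, AddChar.map_add_eq_mul]
    rw [mul_comm (𝐞 t : ℂ), mul_assoc]
    push_cast
    rfl
  one_mem' := ⟨0, by simp⟩
  inv_mem' := by
    rintro x ⟨s, hs⟩
    refine ⟨-s, ?_⟩
    have h1 : star (x : A) * x = 1 := (Unitary.mem_iff.1 x.2).1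
    have h2 : (x : A) * star (x : A) = 1 := (Unitary.mem_iff.1 x.2).2
    change star (x : A) * (b : A) = (𝐞 (-s) : ℂ) • ((b : A) * star (x : A))
    have h3 : (b : A) * star (x : A) = (𝐞 s : ℂ) • (star (x : A) * (b : A)) := by
      calc (b : A) * star (x : A) = star (x : A) * ((x : A) * b) * star (x : A) := by
            rw [← mul_assoc (star (x : A)), h1, one_mul]
        _ = (𝐞 s : ℂ) • (star (x : A) * ((b : A) * x) * star (x : A)) := by
            rw [hs, mul_smul_comm, smul_mul_assoc]
        _ = (𝐞 s : ℂ) • (star (x : A) * (b : A) * ((x : A) * star (x : A))) := by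
            simp only [mul_assoc]
        _ = _ := by rw [h2, mul_one]
    rw [h3, smul_smul, ← Circle.coe_mul, ← AddChar.map_add_eq_mul, neg_add_cancel,
      AddChar.map_zero_eq_one, Circle.coe_one, one_smul]

theorem mem_RC {a b : unitary A} : a ∈ RC b ↔
    ∃ θ : ℝ, (a : A) * (b : A) = (𝐞 θ : ℂ) • ((b : A) * (a : A)) := Iff.rfl

theorem RC_symm {a b : unitary A} (h : a ∈ RC b) : b ∈ RC a := by
  obtain ⟨s, hs⟩ := mem_RC.1 h
  rw [mem_RC]
  refine ⟨-s, ?_⟩
  rw [hs, smul_smul, ← Circle.coe_mul, ← AddChar.map_add_eq_mul, neg_add_cancel,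
    AddChar.map_zero_eq_one, Circle.coe_one, one_smul]

theorem closure_RC (S : Set (unitary A)) (hS : ∀ a ∈ S, ∀ b ∈ S, a ∈ RC b) :
    ∀ a ∈ Subgroup.closure S, ∀ b ∈ Subgroup.closure S, a ∈ RC b := by
  have h1 : ∀ b ∈ S, Subgroup.closure S ≤ RC b := fun b hb =>
    (Subgroup.closure_le _).2 fun a ha => hS a ha b hb
  intro a ha
  have h2 : Subgroup.closure S ≤ RC a :=
    (Subgroup.closure_le _).2 fun b hb => RC_symm (h1 b hb ha)
  intro b hb
  exact RC_symm (h2 hb)

theorem iterate_star (α : A →⋆ₐ[ℂ] A) (n : ℕ) (a : A) : α^[n] (star a) = star (α^[n] a) := by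
  induction n with
  | zero => rfl
  | succ n ih =>
    rw [Function.iterate_succ', Function.comp_apply, Function.comp_apply, ih, map_star]

theorem iterate_unitary (α : A →⋆ₐ[ℂ] A) (n : ℕ) {a : A} (ha : a ∈ unitary A) :
    α^[n] a ∈ unitary A := by
  rw [Unitary.mem_iff] at ha ⊢
  constructor
  · rw [← iterate_star, ← iterate_map_mul, ha.1, iterate_map_one]
  · rw [← iterate_star, ← iterate_map_mul, ha.2, iterate_map_one]

/-- the averages along an element whose multiplicative differences commute up to scalars and end in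
the scalars -/
theorem torus2 (α : A →⋆ₐ[ℂ] A) (v : unitary A) (M : ℕ) (hM : 1 ≤ M)
    (hcomm : ∀ i j, 1 ≤ i → 1 ≤ j → ∃ c : ℂ, (mdiff α M)^[i] (v : A) * (mdiff α M)^[j] (v : A) =
      c • ((mdiff α M)^[j] (v : A) * (mdiff α M)^[i] (v : A))) (k : ℕ) (c : ℂ)
    (hk : (mdiff α M)^[k + 1] (v : A) = c • (1 : A)) : TwistedDisjoint α (v : A) := by
  classical
  intro ρ hρ z hz
  have hnt : Nontrivial A := by
    by_contra h
    rw [not_nontrivial_iff_subsingleton] at h
    have h1 : ρ = 0 := by
      ext x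
      rw [Subsingleton.elim x 0]
      simp
    have := hρ.2
    rw [h1, norm_zero] at this
    exact zero_ne_one this
  have hn1 : ∀ g : unitary A, ‖(g : A)‖ = 1 := fun g => CStarRing.norm_coe_unitary g
  have hn1' : ∀ g : A, g ∈ unitary A → ‖g‖ = 1 := fun g hg => hn1 ⟨g, hg⟩
  have hρb : ∀ x, ‖ρ x‖ ≤ ‖x‖ := fun x => by
    have := ρ.le_opNorm x
    rwa [hρ.2, one_mul] at this
  let w : ℕ → ℂ := fun n => (μ n : ℂ) * z ^ n
  have hw : ∀ n, ‖w n‖ ≤ 1 := fun n => by
    simp only [w]
    rw [norm_mul, norm_pow, hz, one_pow, mul_one]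
    exact norm_moebius n
  obtain ⟨H, _, _, _, π₀, ζ, hζ⟩ := exists_gns ρ hρ
  obtain ⟨θ₀, hθ₀⟩ := exists_phase z hz
  -- the iterated differences
  let Dv : ℕ → A := fun i => (mdiff α M)^[i] (v : A)
  have hXu : ∀ i, Dv i ∈ unitary A := by
    intro i
    induction i with
    | zero => exact v.2
    | succ i ih =>
      simp only [Dv] at ih ⊢
      rw [Function.iterate_succ', Function.comp_apply, mdiff]
      exact mul_mem (iterate_unitary α M ih) (Unitary.star_mem ih)
  have hXstep : ∀ i, α^[M] (Dv i) = Dv (i + 1) * Dv i := by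
    intro i
    have h2 : Dv (i + 1) = α^[M] (Dv i) * star (Dv i) := by
      simp only [Dv]
      rw [Function.iterate_succ', Function.comp_apply, mdiff]
    rw [h2, mul_assoc, (Unitary.mem_iff.1 (hXu i)).1, mul_one]
  have hsm : ∀ (m : ℕ) (c : ℂ) (z : A), α^[m] (c • z) = c • α^[m] z := fun m c z =>
    map_smul (iterL α m) c z
  have hphase : ∀ (a b : A), a ∈ unitary A → b ∈ unitary A → (∃ c : ℂ, a * b = c • (b * a)) →
      ∃ θ : ℝ, a * b = (𝐞 θ : ℂ) • (b * a) := by
    rintro a b ha hb ⟨c, hc⟩
    have h3 : ‖c‖ = 1 := by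
      have h2 : ‖a * b‖ = ‖c • (b * a)‖ := by rw [hc]
      rw [norm_smul, hn1' _ (mul_mem ha hb), hn1' _ (mul_mem hb ha), mul_one] at h2
      exact h2.symm
    obtain ⟨θ, hθ⟩ := exists_phase c h3
    exact ⟨θ, by rw [hc, hθ]⟩
  have hv1 : ‖(v : A)‖ = 1 := hn1 v
  suffices hG : Tendsto (fun N : ℕ =>
      (∑ n ∈ Finset.range N, w n * ρ (α^[n] (v : A))) / (N : ℂ)) atTop (𝓝 0) by
    apply Icc_of_range _ 1 _ hG
    intro n
    rw [norm_mul]
    calc _ ≤ 1 * ‖(v : A)‖ := by
          gcongr
          · exact hw n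
          · exact (hρb _).trans (iterate_norm_le α n _)
      _ = _ := by rw [hv1, one_mul]
  apply residue_split _ 1 _ M hM
  · intro r hr
    let y : ℕ → A := fun i => α^[r] (Dv (i + 1))
    set vr := α^[r] (v : A) with hvr
    have hyu : ∀ i, y i ∈ unitary A := fun i => iterate_unitary α r (hXu (i + 1))
    have hy : ∀ i j, ∃ θ : ℝ, y i * y j = (𝐞 θ : ℂ) • (y j * y i) := by
      intro i j
      apply hphase _ _ (hyu i) (hyu j)
      obtain ⟨c, hc⟩ := hcomm (i + 1) (j + 1) (by omega) (by omega)
      refine ⟨c, ?_⟩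
      simp only [y, Dv]
      rw [← iterate_map_mul, hc, hsm, iterate_map_mul]
    have hβmul : ∀ a b : A, α^[M] (a * b) = α^[M] a * α^[M] b := fun a b => iterate_map_mul α M a b
    have hrM : ∀ a : A, α^[M] (α^[r] a) = α^[r] (α^[M] a) := by
      intro a
      rw [← Function.iterate_add_apply, ← Function.iterate_add_apply, add_comm]
    have hystep : ∀ i, α^[M] (y i) = y (i + 1) * y i := by
      intro i
      simp only [y]
      rw [hrM, hXstep, iterate_map_mul]
    have hvstep : α^[M] vr = y 0 * vr := by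
      rw [hvr, hrM]
      have : α^[M] (v : A) = Dv 1 * (v : A) := hXstep 0
      rw [this, iterate_map_mul]
    have hyk : ∃ θ : ℝ, y k = (𝐞 θ : ℂ) • (1 : A) := by
      have h1 : y k = c • (1 : A) := by
        simp only [y, Dv]
        rw [hk, hsm, iterate_map_one]
      have hc : ‖c‖ = 1 := by
        have h2 := hn1' _ (hyu k)
        rw [h1, norm_smul, norm_one, mul_one] at h2
        exact h2
      obtain ⟨θ, hθ⟩ := exists_phase c hc
      exact ⟨θ, by rw [h1, hθ]⟩
    obtain ⟨f, hf, h1⟩ := beta_iter (α^[M]) hβmul (hsm M) (iterate_map_one α M) y hy hystep k hyk 0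
      (Nat.zero_le _)
    let a : ℕ → ℕ → ℕ := fun j n => n.choose (j + 1)
    have ha : ∀ j, IsPN (a j) := fun j => IsPN.choose (j + 1)
    obtain ⟨e, he, h2⟩ := PW_mul hy (ex_pn 0) ha k
    let F : ℕ → ℂ := fun n => Nat.rec 1 (fun m s => (f m * e m) * s) n
    have hF0 : F 0 = 1 := rfl
    have hF1 : ∀ n, F (n + 1) = (f n * e n) * F n := fun n => rfl
    have hFpp : IsPP F := IsPP.prod (hf.mul he) hF0 hF1
    have hVq : ∀ q : ℕ, (α^[M])^[q] vr = F q • (PW y a k q * vr) := by
      intro q
      induction q with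
      | zero =>
        have h3 : PW y a k 0 = 1 := by
          generalize k = K
          induction K with
          | zero => rfl
          | succ K ihK =>
            have e1 : PW y a (K + 1) 0 = PW y a K 0 * y K ^ (a K 0) := rfl
            rw [e1, ihK]
            simp [a]
        rw [h3, hF0, one_smul, one_mul]
        rfl
      | succ q ih =>
        have hm : ∀ (n : ℕ) (a b : A), (α^[M])^[n] (a * b) = (α^[M])^[n] a * (α^[M])^[n] b := by
          intro n
          induction n with
          | zero => intro a b; rfl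
          | succ n ihm =>
            intro a b
            rw [Function.iterate_succ, Function.comp_apply, hβmul, ihm]
            rfl
        rw [Function.iterate_succ, Function.comp_apply, hvstep, hm, h1, ih, smul_mul_smul_comm,
          ← mul_assoc, h2, smul_mul_assoc, smul_smul, hF1]
        have h3 : PW y (fun j n => ex 0 j n + a j n) k q = PW y a k (q + 1) := by
          generalize k = K
          induction K with
          | zero => rfl
          | succ K ihK =>
            have e1 : PW y (fun j n => ex 0 j n + a j n) (K + 1) q =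
              PW y (fun j n => ex 0 j n + a j n) K q * y K ^ (ex 0 K q + a K q) := rfl
            have e2 : PW y a (K + 1) (q + 1) = PW y a K (q + 1) * y K ^ (a K (q + 1)) := rfl
            have e3 : ex 0 K q + a K q = a K (q + 1) := by
              simp only [ex, a]
              rw [if_pos (Nat.zero_le _), Nat.sub_zero, Nat.choose_succ_succ]
            rw [e1, e2, ihK, e3]
        rw [h3]
        congr 1
        ring
    -- the group
    let S : Set (unitary A) := Set.range fun i => (⟨y i, hyu i⟩ : unitary A)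
    have hS : ∀ a ∈ S, ∀ b ∈ S, a ∈ RC b := by
      rintro _ ⟨i, rfl⟩ _ ⟨j, rfl⟩
      exact hy i j
    have hcl := closure_RC S hS
    let 𝔾 := Subgroup.closure S
    let π : 𝔾 →* (H →L[ℂ] H) :=
      { toFun := fun x => π₀ ((x : unitary A) : A)
        map_one' := by simp
        map_mul' := fun x y => by simp }
    have hπ : ∀ x, π x ∈ unitary (H →L[ℂ] H) := by
      intro x
      have h1 := (x : unitary A).2
      exact Unitary.map_mem π₀ h1
    have hπc : ∀ x y, ∃ c : ℂ, ‖c‖ = 1 ∧ π (x * y) = c • π (y * x) := by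
      intro x y
      obtain ⟨θ, hθ⟩ := hcl x x.2 y y.2
      refine ⟨(𝐞 θ : ℂ), Circle.norm_coe _, ?_⟩
      change π₀ _ = _ • π₀ _
      rw [← map_smul]
      congr 1
    let gg : ℕ → 𝔾 := fun i => Nat.casesOn i 1
      (fun j => ⟨⟨y j, hyu j⟩, Subgroup.subset_closure ⟨j, rfl⟩⟩)
    have hpg : ∀ q : ℕ, (((pg gg k q : 𝔾) : unitary A) : A) = PW y a k q := by
      intro q
      generalize k = K
      induction K with
      | zero => rfl
      | succ K ihK =>
        have e1 : pg gg (K + 1) q = pg gg K q * gg (K + 1) ^ (q.choose (K + 1)) := rfl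
        have e2 : PW y a (K + 1) q = PW y a K q * y K ^ (a K q) := rfl
        rw [e1, e2, ← ihK]
        rfl
    obtain ⟨P, hP⟩ := hFpp
    have hzq : ∀ q : ℕ, z ^ (M * q + r) =
        (𝐞 ((C (θ₀ * r) + C (θ₀ * M) * X : ℝ[X]).eval (q : ℝ)) : ℂ) := by
      intro q
      rw [hθ₀, phase_pow]
      congr 3
      simp only [eval_add, eval_mul, eval_C, eval_X]
      push_cast
      ring
    have hν : OrthPoly (fun q => w (M * q + r) * F q) := by
      have := ((moebius_ap M hM r hr).mul_phase (C (θ₀ * r) + C (θ₀ * M) * X)).mul_phase P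
      simpa only [w, hP, hzq] using this
    have hmain := main_thm π hπ hπc k gg (fun q => w (M * q + r) * F q) (fun q => by
      rw [norm_mul, hP, Circle.norm_coe, mul_one]
      exact hw _) hν (π₀ vr ζ)
    have h5 := hmain.const_mul ‖ζ‖
    rw [mul_zero] at h5
    rw [tendsto_zero_iff_norm_tendsto_zero]
    refine squeeze_zero (fun N => norm_nonneg _) (fun N => ?_) h5
    rw [norm_div, Complex.norm_natCast, ← mul_div_assoc]
    gcongr
    have h6 : ∑ q ∈ Finset.range N, w (M * q + r) * ρ (α^[M * q + r] (v : A)) =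
        inner ℂ ζ (∑ q ∈ Finset.range N, (w (M * q + r) * F q) • π (pg gg k q) (π₀ vr ζ)) := by
      rw [inner_sum]
      apply Finset.sum_congr rfl
      intro q _
      have h7 : α^[M * q + r] (v : A) = F q • (PW y a k q * vr) := by
        rw [← hVq, Function.iterate_add, Function.comp_apply, Function.iterate_mul]
      rw [h7, map_smul, smul_eq_mul, hζ, inner_smul_right, map_mul, mul_apply_eq_comp, ← hpg]
      exact (mul_assoc _ _ _).symm
    rw [h6]
    exact norm_inner_le_norm _ _
  · intro n
    rw [norm_mul]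
    calc _ ≤ 1 * ‖(v : A)‖ := by
          gcongr
          · exact hw n
          · exact (hρb _).trans (iterate_norm_le α n _)
      _ = _ := by rw [hv1, one_mul]

end Pool.Agent.Helper40.Conv
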