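import Mathlib
import Pool.Agent.Helper40.Wiener7
import Pool.Agent.Helper40.Free.FDefs
import Pool.Agent.Helper40.Free.Gns
import Pool.Agent.Helper40.Conv.CDefs
import Pool.Agent.Helper40.Conv.Norm
import Pool.Agent.Helper40.Conv.Avg
import Pool.Agent.Helper40.Conv.Orbit
import Pool.Agent.Helper40.Conv.Sets
import Pool.Agent.Helper40.Conv.Torus2

open Filter Topology
open scoped InnerProductSpace ComplexConjugate ArithmeticFunction.Moebius

set_option linter.unusedSectionVars false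

namespace Pool.Agent.Helper40.Conv

open Pool.Agent.Helper40.Wiener Pool.Agent.Helper40.QFree Pool.Agent.Helper40.Mob
open Pool.Agent.Helper40.Free

universe u

variable {A : Type u} [CStarAlgebra A] {G : Type*} [Group G]

theorem unit_scalar [Nontrivial A] {a b : A} (ha : a ∈ unitary A) (hb : b ∈ unitary A) {c : ℂ}
    (h : a = c • b) : ‖c‖ = 1 := by
  have h1 : ‖a‖ = 1 := CStarRing.norm_coe_unitary ⟨a, ha⟩
  have h2 : ‖b‖ = 1 := CStarRing.norm_coe_unitary ⟨b, hb⟩
  rw [h, norm_smul, h2, mul_one] at h1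
  exact h1

theorem smul_flip [Nontrivial A] {a b : A} (ha : a ∈ unitary A) (hb : b ∈ unitary A) {c : ℂ}
    (h : a = c • b) : b = conj c • a := by
  have h1 := unit_scalar ha hb h
  rw [h, smul_smul, Complex.conj_mul', h1]
  simp

theorem u_one [Nontrivial A] (u : G → unitary A)
    (hu : ∀ g h, ∃ c : ℂ, (u g : A) * (u h : A) = c • (u (g * h) : A)) :
    ∃ c : ℂ, (u 1 : A) = c • (1 : A) := by
  obtain ⟨c, hc⟩ := hu 1 1
  rw [mul_one] at hc
  refine ⟨c, ?_⟩
  have h1 : (u 1 : A) * star (u 1 : A) = 1 := (Unitary.mem_iff.1 (u 1).2).2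
  calc (u 1 : A) = (u 1 : A) * (u 1 : A) * star (u 1 : A) := by rw [mul_assoc, h1, mul_one]
    _ = _ := by rw [hc, smul_mul_assoc, h1]

theorem u_star [Nontrivial A] (u : G → unitary A)
    (hu : ∀ g h, ∃ c : ℂ, (u g : A) * (u h : A) = c • (u (g * h) : A)) (g : G) :
    ∃ c : ℂ, star (u g : A) = c • (u g⁻¹ : A) := by
  obtain ⟨c, hc⟩ := hu g g⁻¹
  obtain ⟨d, hd⟩ := u_one u hu
  rw [mul_inv_cancel, hd, smul_smul] at hc
  have h1 : star (u g : A) * (u g : A) = 1 := (Unitary.mem_iff.1 (u g).2).1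
  have h2 : (u g⁻¹ : A) = (c * d) • star (u g : A) := by
    calc (u g⁻¹ : A) = star (u g : A) * ((u g : A) * (u g⁻¹ : A)) := by
          rw [← mul_assoc, h1, one_mul]
      _ = _ := by rw [hc, mul_smul_comm, mul_one]
  exact ⟨conj (c * d), smul_flip (u g⁻¹).2 (Unitary.star_mem (u g).2) h2⟩

/-- the GNS picture of a twisted reduced group C*-algebra: linear combinations of unitaries indexed by
coloured families are small -/
theorem alg_bound {M : Type*} [MetricSpace M] [MulAction G M]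
    (u : G → unitary A) (hu : ∀ g h, ∃ c : ℂ, (u g : A) * (u h : A) = c • (u (g * h) : A))
    (τ : A →L[ℂ] ℂ) (hτ : IsState τ) (hτu : ∀ g, g ≠ 1 → τ (u g : A) = 0)
    (hτf : ∀ a, (∀ x y, τ (x * a * y) = 0) → a = 0)
    (hdense : ∀ a : A, a ∈ closure ((Submodule.span ℂ (Set.range fun g => (u g : A)) :
      Submodule ℂ A) : Set A))
    (x : ℕ → G) (o : M) (S : Finset ℕ) (κ : ℕ → M → Fin 4) (hκ : Coloured x S κ) (c : ℕ → ℂ) :
    ‖∑ n ∈ S, c n • (u (x n) : A)‖ ≤ 4 * √(∑ n ∈ S, ‖c n‖ ^ 2) := by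
  have hnt : Nontrivial A := by
    by_contra h
    rw [not_nontrivial_iff_subsingleton] at h
    have h1 : τ = 0 := by
      ext x
      rw [Subsingleton.elim x 0]
      simp
    have := hτ.2
    rw [h1, norm_zero] at this
    exact zero_ne_one this
  obtain ⟨H, _, _, _, π, ζ, hζ, hcyc⟩ := exists_gns_cyc τ hτ
  have hπinj : Function.Injective π := by
    rw [injective_iff_map_eq_zero]
    intro a ha
    apply hτf
    intro x y
    rw [hζ, map_mul, map_mul, ha, mul_zero, zero_mul, zero_apply, inner_zero_right]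
  have hπnorm : ∀ a, ‖π a‖ = ‖a‖ := fun a => NonUnitalStarAlgHom.norm_map π hπinj a
  let e : G → H := fun h => π (u h : A) ζ
  have hone : τ 1 = 1 := state_one τ hτ
  have hζ1 : inner ℂ ζ ζ = (1 : ℂ) := by
    have := hζ 1
    rw [hone, map_one, one_apply_eq_self] at this
    exact this.symm
  have he : Orthonormal ℂ e := by
    classical
    rw [orthonormal_iff_ite]
    intro g h
    have h1 : inner ℂ (e g) (e h) = τ (star (u g : A) * (u h : A)) := by
      rw [hζ, map_mul, map_star, mul_apply_eq_comp, inner_star_right]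
    rw [h1]
    by_cases hgh : g = h
    · subst hgh
      rw [if_pos rfl, (Unitary.mem_iff.1 (u g).2).1, hone]
    · rw [if_neg hgh]
      obtain ⟨c, hc⟩ := u_star u hu g
      obtain ⟨d, hd⟩ := hu g⁻¹ h
      rw [hc, smul_mul_assoc, hd, map_smul, map_smul, hτu _ (by
        intro h2
        exact hgh (inv_mul_eq_one.1 h2)), smul_zero, smul_zero]
  have hd : Dense ((Submodule.span ℂ (Set.range e) : Submodule ℂ H) : Set H) := by
    let L : A →L[ℂ] H :=
      { toFun := fun a => π a ζ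
        map_add' := fun a b => by rw [map_add, add_apply]
        map_smul' := fun c a => by rw [map_smul, smul_apply]; rfl
        cont := by
          have h1 : Continuous fun a => π a := by
            apply (LinearMap.mkContinuous (π : A →ₗ[ℂ] (H →L[ℂ] H)) 1 (fun a => by
              rw [one_mul]; exact (hπnorm a).le)).continuous
          exact h1.clm_apply continuous_const }
    have h1 : ∀ a, L a ∈ closure ((Submodule.span ℂ (Set.range e) : Submodule ℂ H) : Set H) := by
      intro a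
      have h2 := image_closure_subset_closure_image L.continuous (Set.mem_image_of_mem L (hdense a))
      refine closure_mono ?_ h2
      rintro _ ⟨b, hb, rfl⟩
      refine Submodule.span_induction (p := fun b _ => L b ∈
        ((Submodule.span ℂ (Set.range e) : Submodule ℂ H) : Set H)) ?_ ?_ ?_ ?_ hb
      · rintro _ ⟨g, rfl⟩
        exact Submodule.subset_span ⟨g, rfl⟩
      · simp
      · intro a b _ _ ha hb
        rw [map_add]
        exact Submodule.add_mem _ ha hb
      · intro c a _ ha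
        rw [map_smul]
        exact Submodule.smul_mem _ c ha
    intro v
    have h3 : closure (Set.range fun a => π a ζ) ⊆
        closure ((Submodule.span ℂ (Set.range e) : Submodule ℂ H) : Set H) :=
      closure_minimal (by rintro _ ⟨a, rfl⟩; exact h1 a) isClosed_closure
    exact h3 (hcyc v)
  have hT := norm_bound (M := M) he hd (fun n => π (u (x n) : A)) x (fun n v => by
      have h1 : star (π (u (x n) : A)) * π (u (x n) : A) = 1 := by
        rw [← map_star, ← map_mul, (Unitary.mem_iff.1 (u (x n)).2).1, map_one]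
      have h2 : inner ℂ (π (u (x n) : A) v) (π (u (x n) : A) v) = inner ℂ v v := by
        rw [← inner_star_right, ← mul_apply_eq_comp, h1, one_apply_eq_self]
      have h3 : ‖π (u (x n) : A) v‖ ^ 2 = ‖v‖ ^ 2 := by
        rw [inner_self_eq_norm_sq_to_K, inner_self_eq_norm_sq_to_K] at h2
        exact_mod_cast h2
      exact (sq_eq_sq₀ (norm_nonneg _) (norm_nonneg _)).1 h3)
    (fun n h => by
      obtain ⟨c, hc⟩ := hu (x n) h
      refine ⟨c, ?_⟩
      change π (u (x n) : A) (π (u h : A) ζ) = c • π (u (x n * h) : A) ζ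
      rw [← mul_apply_eq_comp, ← map_mul, hc, map_smul, smul_apply]) o S κ hκ c
  rw [← hπnorm, map_sum]
  refine le_trans (le_of_eq ?_) hT
  congr 1
  apply Finset.sum_congr rfl
  intro n _
  rw [map_smul]

/-- `u (θⁿ g)` and `αⁿ (u g)` agree up to a unimodular scalar -/
theorem iterate_u [Nontrivial A] (u : G → unitary A) (θ : G ≃* G) (α : A →⋆ₐ[ℂ] A)
    (hα : ∀ g, ∃ c : ℂ, α (u g : A) = c • (u (θ g) : A)) (g : G) (n : ℕ) :
    ∃ c : ℂ, ‖c‖ = 1 ∧ α^[n] (u g : A) = c • (u (θ^[n] g) : A) := by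
  induction n with
  | zero => exact ⟨1, by simp, by simp⟩
  | succ n ih =>
    obtain ⟨c, hc1, hc⟩ := ih
    obtain ⟨d, hd⟩ := hα (θ^[n] g)
    have h1 : α^[n + 1] (u g : A) = (c * d) • (u (θ^[n + 1] g) : A) := by
      rw [Function.iterate_succ', Function.comp_apply, hc, map_smul, hd, smul_smul,
        Function.iterate_succ', Function.comp_apply]
    exact ⟨c * d, unit_scalar (iterate_unitary α (n + 1) (u g).2) (u _).2 h1, h1⟩

/-- case of a generic orbit -/
theorem generic_case {M : Type*} [MetricSpace M] [MulAction G M]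
    (u : G → unitary A) (hu : ∀ g h, ∃ c : ℂ, (u g : A) * (u h : A) = c • (u (g * h) : A))
    (τ : A →L[ℂ] ℂ) (hτ : IsState τ) (hτu : ∀ g, g ≠ 1 → τ (u g : A) = 0)
    (hτf : ∀ a, (∀ x y, τ (x * a * y) = 0) → a = 0)
    (hdense : ∀ a : A, a ∈ closure ((Submodule.span ℂ (Set.range fun g => (u g : A)) :
      Submodule ℂ A) : Set A))
    (θ : G ≃* G) (α : A →⋆ₐ[ℂ] A) (hα : ∀ g, ∃ c : ℂ, α (u g : A) = c • (u (θ g) : A)) (g : G)
    (o : M) (hS : ∀ k : ℕ, ∃ S : Finset ℕ, S.card = k ∧ ∃ ι : ℕ → ℕ, Function.Injective ι ∧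
      ∃ κ : ℕ → M → Fin 4, Coloured (fun n => θ^[ι n] g) S κ)
    (ρ : A →L[ℂ] ℂ) (hρ : IsState ρ) :
    Tendsto (fun N : ℕ => (∑ n ∈ Finset.range N, ‖ρ (α^[n] (u g : A))‖) / (N : ℝ)) atTop
      (𝓝 0) := by
  classical
  have hnt : Nontrivial A := by
    by_contra h
    rw [not_nontrivial_iff_subsingleton] at h
    have h1 : τ = 0 := by
      ext x
      rw [Subsingleton.elim x 0]
      simp
    have := hτ.2
    rw [h1, norm_zero] at this
    exact zero_ne_one this
  have hρb : ∀ x, ‖ρ x‖ ≤ ‖x‖ := fun x => by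
    have := ρ.le_opNorm x
    rwa [hρ.2, one_mul] at this
  apply avg_zero' _ (fun n => norm_nonneg _) (fun n => ?_) 16
  · intro k
    obtain ⟨S, hSk, ι, hι, κ, hκ⟩ := hS k
    refine ⟨S.image ι, by rw [Finset.card_image_of_injective _ hι, hSk], fun j => ?_⟩
    rw [Finset.sum_image (fun a _ b _ h => hι h)]
    choose d hd1 hd using fun n => iterate_u u θ α hα g (ι n)
    set t : ℕ → ℂ := fun n => ρ (α^[j + ι n] (u g : A)) with ht
    have h1 := alg_bound u hu τ hτ hτu hτf hdense (fun n => θ^[ι n] g) o S κ hκ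
      (fun n => conj (t n) * d n)
    have h2 : ∑ n ∈ S, (conj (t n) * d n) • (u (θ^[ι n] g) : A) =
        ∑ n ∈ S, conj (t n) • α^[ι n] (u g : A) := by
      apply Finset.sum_congr rfl
      intro n _
      rw [hd, smul_smul]
    have h3 : ∑ n ∈ S, ‖conj (t n) * d n‖ ^ 2 = ∑ n ∈ S, ‖t n‖ ^ 2 := by
      apply Finset.sum_congr rfl
      intro n _
      rw [norm_mul, hd1, mul_one, RCLike.norm_conj]
    rw [h2, h3] at h1
    have h4 : ρ (α^[j] (∑ n ∈ S, conj (t n) • α^[ι n] (u g : A))) =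
        ((∑ n ∈ S, ‖t n‖ ^ 2 : ℝ) : ℂ) := by
      have h5 : α^[j] (∑ n ∈ S, conj (t n) • α^[ι n] (u g : A)) =
          ∑ n ∈ S, conj (t n) • α^[j + ι n] (u g : A) := by
        have h6 := map_sum (iterL α j) (fun n => conj (t n) • α^[ι n] (u g : A)) S
        refine h6.trans (Finset.sum_congr rfl fun n _ => ?_)
        rw [map_smul, Function.iterate_add_apply]
        rfl
      rw [h5, map_sum]
      push_cast
      apply Finset.sum_congr rfl
      intro n _
      rw [map_smul, smul_eq_mul, ← Complex.conj_mul']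
    have h5 : ∑ n ∈ S, ‖t n‖ ^ 2 ≤ 4 * √(∑ n ∈ S, ‖t n‖ ^ 2) := by
      calc ∑ n ∈ S, ‖t n‖ ^ 2 = ‖((∑ n ∈ S, ‖t n‖ ^ 2 : ℝ) : ℂ)‖ := by
            rw [Complex.norm_real, Real.norm_of_nonneg (by positivity)]
        _ ≤ _ := by
            rw [← h4]
            exact (hρb _).trans ((iterate_norm_le α j _).trans h1)
    have h6 : 0 ≤ ∑ n ∈ S, ‖t n‖ ^ 2 := by positivity
    have h7 := Real.sq_sqrt h6
    have h8 := Real.sqrt_nonneg (∑ n ∈ S, ‖t n‖ ^ 2)
    change ∑ n ∈ S, ‖t n‖ ^ 2 ≤ 16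
    nlinarith
  · calc _ ≤ ‖α^[n] (u g : A)‖ := hρb _
      _ = 1 := CStarRing.norm_coe_unitary ⟨_, iterate_unitary α n (u g).2⟩

theorem mdiff_u [Nontrivial A] (u : G → unitary A)
    (hu : ∀ g h, ∃ c : ℂ, (u g : A) * (u h : A) = c • (u (g * h) : A))
    (θ : G ≃* G) (α : A →⋆ₐ[ℂ] A) (hα : ∀ g, ∃ c : ℂ, α (u g : A) = c • (u (θ g) : A))
    (M : ℕ) (g : G) (i : ℕ) :
    ∃ c : ℂ, (mdiff α M)^[i] (u g : A) = c • (u ((gdiff θ M)^[i] g) : A) := by
  induction i with
  | zero => exact ⟨1, by simp⟩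
  | succ i ih =>
    obtain ⟨c, hc⟩ := ih
    set h := (gdiff θ M)^[i] g with hh
    obtain ⟨d, -, hd⟩ := iterate_u u θ α hα h M
    obtain ⟨e, he⟩ := u_star u hu h
    obtain ⟨f, hf⟩ := hu (θ^[M] h) h⁻¹
    have hsm : α^[M] (c • (u h : A)) = c • α^[M] (u h : A) := map_smul (iterL α M) c _
    refine ⟨c * conj c * d * e * f, ?_⟩
    rw [Function.iterate_succ', Function.comp_apply, hc, mdiff, hsm, hd, star_smul, he,
      Function.iterate_succ', Function.comp_apply, ← hh, gdiff]
    simp only [smul_mul_smul_comm, smul_smul, hf]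
    congr 1
    simp only [RCLike.star_def]
    ring

/-- Main theorem. -/
theorem main_conv {M : Type*} [MetricSpace M] [CompactSpace M] [MulAction G M]
    (hcont : ∀ g : G, Continuous (fun m : M => g • m)) (hconv : IsConvergenceAction G M)
    (hstab : ∀ (m : M) (g h : G), g • m = m → h • m = m → Commute g h)
    (hCT : ∀ a b c : G, b ≠ 1 → Commute a b → Commute b c → Commute a c)
    (u : G → unitary A) (hu : ∀ g h, ∃ c : ℂ, (u g : A) * (u h : A) = c • (u (g * h) : A))
    (τ : A →L[ℂ] ℂ) (hτ : IsState τ) (hτu : ∀ g, g ≠ 1 → τ (u g : A) = 0)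
    (hτf : ∀ a, (∀ x y, τ (x * a * y) = 0) → a = 0)
    (hdense : ∀ a : A, a ∈ closure ((Submodule.span ℂ (Set.range fun g => (u g : A)) :
      Submodule ℂ A) : Set A))
    (θ : G ≃* G) (hθ : ∀ (d : ℕ) (c : G), 1 ≤ d → Commute (θ^[d] c) c →
      ∃ m : ℕ, 1 ≤ m ∧ ∃ k : ℕ, (gdiff θ (d * m))^[k] c = 1)
    (α : A →⋆ₐ[ℂ] A) (hα : ∀ g, ∃ c : ℂ, α (u g : A) = c • (u (θ g) : A)) (a₀ : A) :
    TwistedDisjoint α a₀ := by
  classical
  have hnt : Nontrivial A := by
    by_contra h
    rw [not_nontrivial_iff_subsingleton] at h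
    have h1 : τ = 0 := by
      ext x
      rw [Subsingleton.elim x 0]
      simp
    have := hτ.2
    rw [h1, norm_zero] at this
    exact zero_ne_one this
  intro ρ hρ z₀ hz₀
  have hρb : ∀ x, ‖ρ x‖ ≤ ‖x‖ := fun x => by
    have := ρ.le_opNorm x
    rwa [hρ.2, one_mul] at this
  let T : ℕ → A →ₗ[ℂ] ℂ := fun n => (ρ : A →ₗ[ℂ] ℂ) ∘ₗ iterL α n
  have hT : ∀ n x, ‖T n x‖ ≤ ‖x‖ := fun n x => (hρb _).trans (iterate_norm_le α n x)
  let w : ℕ → ℂ := fun n => (μ n : ℂ) * z₀ ^ n
  have hw : ∀ n, ‖w n‖ ≤ 1 := fun n => by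
    simp only [w]
    rw [norm_mul, norm_pow, hz₀, one_pow, mul_one]
    exact norm_moebius n
  have hcl := goodL_closed T w hw hT
  have hle : (Submodule.span ℂ (Set.range fun g => (u g : A)) : Submodule ℂ A) ≤ goodL T w := by
    rw [Submodule.span_le]
    rintro _ ⟨g, rfl⟩
    change Tendsto _ _ _
    rcases dichotomy hCT θ hθ g with h | ⟨hinj, ψ, hψ, hnc⟩
    · obtain ⟨M', hM', k, hcom, hk⟩ := h
      obtain ⟨c, hc⟩ := mdiff_u u hu θ α hα M' g (k + 1)
      obtain ⟨d, hd⟩ := u_one u hu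
      rw [hk, hd, smul_smul] at hc
      have h1 := torus2 α (u g) M' hM' (fun i j hi hj => by
        obtain ⟨c1, hc1⟩ := mdiff_u u hu θ α hα M' g i
        obtain ⟨c2, hc2⟩ := mdiff_u u hu θ α hα M' g j
        obtain ⟨c3, hc3⟩ := hu ((gdiff θ M')^[i] g) ((gdiff θ M')^[j] g)
        obtain ⟨c4, hc4⟩ := hu ((gdiff θ M')^[j] g) ((gdiff θ M')^[i] g)
        have h5 := smul_flip (mul_mem (u _).2 (u _).2) (u _).2 hc4
        refine ⟨c3 * conj c4, ?_⟩
        rw [hc1, hc2, smul_mul_smul_comm, smul_mul_smul_comm, hc3, (hcom i j hi hj).eq, h5]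
        simp only [smul_smul]
        congr 1
        ring) k (c * d) hc ρ hρ z₀ hz₀
      have h2 := range_of_Icc _ ‖(u g : A)‖ (fun n => by
        rw [norm_mul]
        calc _ ≤ 1 * ‖(u g : A)‖ := by
              gcongr
              · exact hw n
              · exact hT n _
          _ = _ := one_mul _) h1
      have h3 := h2.norm
      rw [norm_zero] at h3
      refine h3.congr fun N => ?_
      rw [norm_div, Complex.norm_natCast]
      rfl
    · obtain ⟨⟨o⟩, hS⟩ := exists_sets (M := M) hconv hcont hstab (fun n => θ^[ψ n] g)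
        (fun a b hab => hψ.injective (hinj hab)) hnc
      have h1 := generic_case (M := M) u hu τ hτ hτu hτf hdense θ α hα g o (fun k => by
        obtain ⟨S, hSk, ι, hι, κ, hκ⟩ := hS k
        exact ⟨S, hSk, fun n => ψ (ι n), hψ.injective.comp hι, κ, hκ⟩) ρ hρ
      refine squeeze_zero (fun N => by positivity) (fun N => ?_) h1
      gcongr
      refine (norm_sum_le _ _).trans (Finset.sum_le_sum fun n _ => ?_)
      rw [norm_smul]
      calc _ ≤ 1 * ‖ρ (α^[n] (u g : A))‖ := by
            gcongr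
            · exact hw n
            · exact le_rfl
        _ = _ := one_mul _
  have hu' : Tendsto (fun N : ℕ => ‖∑ n ∈ Finset.range N, w n • T n a₀‖ / (N : ℝ))
    atTop (𝓝 0) := closure_minimal hle hcl (hdense a₀)
  apply Icc_of_range _ ‖a₀‖
  · intro n
    rw [norm_mul]
    calc _ ≤ 1 * ‖a₀‖ := by
          gcongr
          · exact hw n
          · exact hT n a₀
      _ = _ := one_mul _
  · rw [tendsto_zero_iff_norm_tendsto_zero]
    refine hu'.congr fun N => ?_
    rw [norm_div, Complex.norm_natCast]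
    rfl

end Pool.Agent.Helper40.Conv
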